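import Mathlib

/-!
# Most points of a set avoiding cosets of bounded index lie in large cosets which avoid them
-/

set_option autoImplicit false

namespace Pool.Agent.H217_CF

open Finset

/-- `A` is empty or a coset of a subgroup of index at most `K` -/
def Flat {W : Type} [AddCommGroup W] (K : ℕ) (A : Set W) : Prop :=
  A = ∅ ∨ ∃ (H : AddSubgroup W) (a : W), H.index ≤ K ∧ A = {x | x - a ∈ H}

theorem Flat.restrict {W : Type} [AddCommGroup W] [Finite W] {K : ℕ} {A : Set W} (hA : Flat K A)
    (U : AddSubgroup W) (b : W) : Flat K {w : U | b + (w : W) ∈ A} := by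
  rcases hA with rfl | ⟨H, a, hK, rfl⟩
  · left; ext w; simp
  · by_cases he : ∃ w0 : U, b + (w0 : W) - a ∈ H
    · obtain ⟨w0, hw0⟩ := he
      right
      refine ⟨H.comap U.subtype, w0, ?_, ?_⟩
      · refine le_trans (Nat.le_of_dvd ?_ ?_) hK
        · exact Nat.pos_of_ne_zero AddSubgroup.index_ne_zero_of_finite
        · exact AddSubgroup.relIndex_dvd_index_of_normal H U
      · ext w
        simp only [Set.mem_ofPred_eq, AddSubgroup.mem_comap]
        have e : (b + (w : W) - a) = (U.subtype (w - w0)) + (b + (w0 : W) - a) := by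
          simp only [AddSubgroup.coe_subtype, AddSubgroup.coe_sub]
          abel
        rw [e]
        constructor
        · intro h
          have := H.sub_mem h hw0
          simpa using this
        · intro h
          exact H.add_mem h hw0
    · left
      ext w
      simp only [Set.mem_ofPred_eq, Set.mem_empty_iff_false, iff_false]
      exact fun h => he ⟨w, h⟩

/-- a dense set that misses a coset is denser in another coset -/
theorem other_coset {W : Type} [AddCommGroup W] [Finite W] (H : AddSubgroup W) (a : W)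
    (T : Set W) (hT : T.Nonempty) (hmiss : ∀ x ∈ T, x - a ∉ H) :
    ∃ x1 ∈ T, Nat.card T ≤ Nat.card {w : H | x1 + (w : W) ∈ T} * (H.index - 1) := by
  classical
  have := Fintype.ofFinite W
  have := Fintype.ofFinite (W ⧸ H)
  let s : Finset W := univ.filter fun x => x ∈ T
  let π : W → W ⧸ H := fun x => (x : W ⧸ H)
  have hs : s.Nonempty := by
    obtain ⟨x, hx⟩ := hT
    exact ⟨x, by simp [s, hx]⟩
  obtain ⟨x1, hx1, hmax⟩ := Finset.exists_max_image s
    (fun x => (s.filter fun y => π y = π x).card) hs
  have hx1T : x1 ∈ T := by simpa [s] using hx1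
  refine ⟨x1, hx1T, ?_⟩
  have h1 : s.card ≤ (s.filter fun y => π y = π x1).card * (s.image π).card := by
    refine Finset.card_le_mul_card_image s _ ?_
    intro b hb
    obtain ⟨x, hx, rfl⟩ := Finset.mem_image.1 hb
    exact hmax x hx
  have h2 : (s.image π).card ≤ H.index - 1 := by
    have h3 : s.image π ⊆ univ.erase (π a) := by
      intro b hb
      obtain ⟨x, hx, rfl⟩ := Finset.mem_image.1 hb
      rw [Finset.mem_erase]
      refine ⟨?_, Finset.mem_univ _⟩
      intro he
      have hxT : x ∈ T := by simpa [s] using hx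
      apply hmiss x hxT
      have := (QuotientAddGroup.eq (s := H)).1 he.symm
      rwa [neg_add_eq_sub] at this
    refine (Finset.card_le_card h3).trans ?_
    rw [Finset.card_erase_of_mem (Finset.mem_univ _), Finset.card_univ,
      AddSubgroup.index, Nat.card_eq_fintype_card]
  have h3 : (s.filter fun y => π y = π x1).card = Nat.card {w : H | x1 + (w : W) ∈ T} := by
    have := Fintype.ofFinite {w : H | x1 + (w : W) ∈ T}
    rw [Nat.card_eq_fintype_card, ← Finset.card_univ]
    symm
    refine Finset.card_bij (fun w _ => x1 + ((w : H) : W)) ?_ ?_ ?_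
    · intro w _
      have hw : x1 + ((w : H) : W) ∈ T := w.2
      simp only [Finset.mem_filter, s, Finset.mem_univ, true_and]
      refine ⟨hw, ?_⟩
      refine ((QuotientAddGroup.eq (s := H)).2 ?_).symm
      simp
    · intro w _ w' _ h
      have := add_left_cancel h
      exact Subtype.ext (Subtype.ext this)
    · intro y hy
      simp only [Finset.mem_filter, s, Finset.mem_univ, true_and] at hy
      have h4 := (QuotientAddGroup.eq (s := H)).1 hy.2.symm
      refine ⟨⟨⟨-x1 + y, h4⟩, ?_⟩, Finset.mem_univ _, ?_⟩
      · show x1 + (-x1 + y) ∈ T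
        rw [add_neg_cancel_left]
        exact hy.1
      · simp
  have h4 : s.card = Nat.card T := by
    have := Fintype.ofFinite T
    rw [Nat.card_eq_fintype_card, ← Finset.card_univ]
    symm
    refine Finset.card_bij (fun w _ => (w : W)) ?_ ?_ ?_
    · intro w _; simp [s]
    · intro w _ w' _ h; exact Subtype.ext h
    · intro y hy
      refine ⟨⟨y, by simpa [s] using hy⟩, Finset.mem_univ _, rfl⟩
  rw [← h4, ← h3]
  exact h1.trans (Nat.mul_le_mul_left _ h2)

theorem frac {j K : ℕ} (h0 : 0 < j) (h : j ≤ K) : (j - 1) * K ≤ j * (K - 1) := by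
  obtain ⟨j, rfl⟩ : ∃ i, j = i + 1 := ⟨j - 1, by omega⟩
  obtain ⟨K, rfl⟩ : ∃ k, K = k + 1 := ⟨K - 1, by omega⟩
  simp only [Nat.add_sub_cancel]
  nlinarith

/-- **A dense set which avoids all members of a collection of cosets of bounded index has a point
with a large coset around it which avoids all of them.** -/
theorem greedy (K : ℕ) : ∀ (n : ℕ) (W : Type) [AddCommGroup W] [Finite W] (T : Set W)
    (𝒜 : Set (Set W)), (∀ A ∈ 𝒜, Flat K A) → (∀ A ∈ 𝒜, ∀ x ∈ T, x ∉ A) →
    Nat.card W * (K - 1) ^ (n + 1) < Nat.card T * K ^ (n + 1) →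
    ∃ (U : AddSubgroup W), ∃ x ∈ T, U.index ≤ K ^ n ∧ ∀ w ∈ U, ∀ A ∈ 𝒜, x + w ∉ A := by
  intro n
  induction n with
  | zero =>
    intro W _ _ T 𝒜 hA hT hd
    have hne : T.Nonempty := by
      by_contra hc
      rw [Set.not_nonempty_iff_eq_empty] at hc
      subst hc
      simp at hd
    by_cases hc : ∀ A ∈ 𝒜, ¬ A.Nonempty
    · obtain ⟨x, hx⟩ := hne
      exact ⟨⊤, x, hx, by simp, fun w _ A hA' h => hc A hA' ⟨_, h⟩⟩
    · exfalso
      push Not at hc
      obtain ⟨A, hA', hAne⟩ := hc
      rcases hA A hA' with h | ⟨H, a, hK, h⟩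
      · rw [h] at hAne; exact absurd hAne (by simp)
      · obtain ⟨x1, hx1, hcard⟩ := other_coset H a T hne (by
          intro x hx hxa
          refine hT A hA' x hx ?_
          rw [h]; exact hxa)
        have h1 : Nat.card {w : H | x1 + (w : W) ∈ T} ≤ Nat.card H :=
          Nat.card_le_card_of_injective _ Subtype.val_injective
        have h2 := AddSubgroup.index_mul_card H
        have h3 : 0 < H.index := Nat.pos_of_ne_zero AddSubgroup.index_ne_zero_of_finite
        have h4 : Nat.card T * K ≤ Nat.card W * (K - 1) := by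
          calc Nat.card T * K ≤ (Nat.card H * (H.index - 1)) * K := by
                refine Nat.mul_le_mul_right _ (hcard.trans (Nat.mul_le_mul_right _ h1))
            _ = Nat.card H * ((H.index - 1) * K) := by ring
            _ ≤ Nat.card H * (H.index * (K - 1)) := by
                exact Nat.mul_le_mul_left _ (frac h3 hK)
            _ = Nat.card W * (K - 1) := by rw [← h2]; ring
        simp only [zero_add, pow_one] at hd
        omega
  | succ n ih =>
    intro W _ _ T 𝒜 hA hT hd
    have hne : T.Nonempty := by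
      by_contra hc
      rw [Set.not_nonempty_iff_eq_empty] at hc
      subst hc
      simp at hd
    by_cases hc : ∀ A ∈ 𝒜, ¬ A.Nonempty
    · obtain ⟨x, hx⟩ := hne
      refine ⟨⊤, x, hx, ?_, fun w _ A hA' h => hc A hA' ⟨_, h⟩⟩
      rcases Nat.eq_zero_or_pos K with h0 | h0
      · subst h0
        simp at hd
      · rw [AddSubgroup.index_top]
        exact Nat.one_le_pow _ _ h0
    · push Not at hc
      obtain ⟨A, hA', hAne⟩ := hc
      rcases hA A hA' with h | ⟨H, a, hK, h⟩
      · rw [h] at hAne; exact absurd hAne (by simp)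
      · obtain ⟨x1, hx1, hcard⟩ := other_coset H a T hne (by
          intro x hx hxa
          refine hT A hA' x hx ?_
          rw [h]; exact hxa)
        have h2 := AddSubgroup.index_mul_card H
        have h3 : 0 < H.index := Nat.pos_of_ne_zero AddSubgroup.index_ne_zero_of_finite
        have hK0 : 0 < K := by omega
        set T' : Set H := {w : H | x1 + (w : W) ∈ T} with hT''
        have hd' : Nat.card H * (K - 1) ^ (n + 1) < Nat.card T' * K ^ (n + 1) := by
          by_contra hcon
          push Not at hcon
          have h5 : (H.index - 1) * K ≤ H.index * (K - 1) := frac h3 hK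
          have h6 : Nat.card T * K ^ (n + 2) ≤ Nat.card W * (K - 1) ^ (n + 2) := by
            calc Nat.card T * K ^ (n + 2) ≤ (Nat.card T' * (H.index - 1)) * K ^ (n + 2) :=
                  Nat.mul_le_mul_right _ hcard
              _ = (Nat.card T' * K ^ (n + 1)) * ((H.index - 1) * K) := by ring
              _ ≤ (Nat.card H * (K - 1) ^ (n + 1)) * (H.index * (K - 1)) :=
                  Nat.mul_le_mul hcon h5
              _ = (H.index * Nat.card H) * (K - 1) ^ (n + 2) := by ring
              _ = Nat.card W * (K - 1) ^ (n + 2) := by rw [h2]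
          exact absurd hd (not_lt.2 h6)
        obtain ⟨U', x', hx', h7, h8⟩ := ih H T' ((fun A => {w : H | x1 + (w : W) ∈ A}) '' 𝒜)
          (by rintro _ ⟨A, hA', rfl⟩; exact (hA A hA').restrict H x1)
          (by
            rintro _ ⟨A, hA', rfl⟩ w hw
            exact hT A hA' _ hw) hd'
        refine ⟨U'.map H.subtype, x1 + x', hx', ?_, ?_⟩
        · have h9 : Nat.card (U'.map H.subtype) = Nat.card U' :=
            (Nat.card_congr (U'.equivMapOfInjective H.subtype
              (AddSubgroup.subtype_injective H)).toEquiv).symm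
          have h10 := AddSubgroup.index_mul_card (U'.map H.subtype)
          have h11 := AddSubgroup.index_mul_card U'
          have h12 : 0 < Nat.card U' := Nat.card_pos
          rw [h9] at h10
          have h13 : (U'.map H.subtype).index = H.index * U'.index := by
            apply Nat.eq_of_mul_eq_mul_right h12
            rw [h10, mul_assoc, h11, h2]
          rw [h13, pow_succ, mul_comm]
          exact Nat.mul_le_mul h7 hK
        · rintro _ ⟨w, hw, rfl⟩ A hA'' hmem
          refine h8 w hw _ ⟨A, hA'', rfl⟩ ?_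
          show x1 + ((x' + w : H) : W) ∈ A
          rw [AddSubgroup.coe_add, ← add_assoc]
          exact hmem

/-- if no point of `T` has a large coset around it which avoids the cosets then `T` is small -/
theorem few (K n : ℕ) (W : Type) [AddCommGroup W] [Finite W] (T : Set W)
    (𝒜 : Set (Set W)) (h𝒜 : ∀ A ∈ 𝒜, Flat K A) (hT : ∀ A ∈ 𝒜, ∀ x ∈ T, x ∉ A)
    (h : ∀ x ∈ T, ∀ U : AddSubgroup W, U.index ≤ K ^ n → ∃ w ∈ U, ∃ A ∈ 𝒜, x + w ∈ A) :
    Nat.card T * K ^ (n + 1) ≤ Nat.card W * (K - 1) ^ (n + 1) := by
  by_contra hcon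
  obtain ⟨U, x, hx, h1, h2⟩ := greedy K n W T 𝒜 h𝒜 hT (not_le.1 hcon)
  obtain ⟨w, hw, A, hA, h3⟩ := h x hx U h1
  exact h2 w hw A hA h3

end Pool.Agent.H217_CF
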