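import Mathlib
import Pool.Agent.R288.PC.Flats
import Pool.Agent.H217_CF.Greedy

/-!
# Most points of a locally defined set have low-degree certificates
-/

set_option autoImplicit false

namespace Pool.Agent.H217_CF

open Finset Module
open Pool.Agent.R288.PC (V Deg Cert vol)

/-- the solutions of `k` linear equations -/
def Cell {N : ℕ} (k : ℕ) (B : Set (V N)) : Prop :=
  ∃ (u : Fin k → V N) (c : Fin k → ZMod 2), B = {y | ∀ i, u i ⬝ᵥ y = c i}

theorem flat_of_cell {N k : ℕ} {B : Set (V N)} (hB : Cell k B) : Flat (2 ^ k) B := by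
  obtain ⟨u, c, rfl⟩ := hB
  by_cases he : ∃ a : V N, ∀ i, u i ⬝ᵥ a = c i
  · obtain ⟨a, ha⟩ := he
    right
    let φ : V N →+ (Fin k → ZMod 2) :=
      { toFun := fun y i => u i ⬝ᵥ y
        map_zero' := by funext i; simp
        map_add' := fun x y => by funext i; simp [dotProduct_add] }
    refine ⟨φ.ker, a, ?_, ?_⟩
    · rw [AddSubgroup.index_ker]
      have h1 : Nat.card φ.range ≤ Nat.card (Fin k → ZMod 2) :=
        Nat.card_le_card_of_injective _ Subtype.val_injective
      refine h1.trans (le_of_eq ?_)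
      rw [Nat.card_eq_fintype_card, Fintype.card_fun, ZMod.card, Fintype.card_fin]
    · ext y
      simp only [Set.mem_ofPred_eq, AddMonoidHom.mem_ker]
      constructor
      · intro h
        funext i
        show u i ⬝ᵥ (y - a) = 0
        rw [dotProduct_sub, h i, ha i, sub_self]
      · intro h i
        have h1 : u i ⬝ᵥ (y - a) = 0 := congrFun h i
        rw [dotProduct_sub, ha i, sub_eq_zero] at h1
        exact h1
  · left
    ext y
    simp only [Set.mem_ofPred_eq, Set.mem_empty_iff_false, iff_false]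
    exact fun h => he ⟨y, h⟩

theorem coset_in_flat {W : Type} [AddCommGroup W] {K : ℕ} {A : Set W} (hA : Flat K A) {x : W}
    (hx : x ∈ A) : ∃ H : AddSubgroup W, H.index ≤ K ∧ ∀ w ∈ H, x + w ∈ A := by
  rcases hA with h | ⟨H, a, hK, h⟩
  · rw [h] at hx
    exact absurd hx (by simp)
  · refine ⟨H, hK, fun w hw => ?_⟩
    rw [h] at hx ⊢
    simp only [Set.mem_ofPred_eq] at hx ⊢
    have e : x + w - a = (x - a) + w := by abel
    rw [e]
    exact H.add_mem hx hw

/-- a point with a large coset in `L` has a certificate -/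
theorem cert_of_coset {N r : ℕ} {L : Set (V N)} {x : V N} (U : AddSubgroup (V N))
    (hU : U.index ≤ 2 ^ r) (h : ∀ w ∈ U, x + w ∈ L) : Cert (ZMod 2) r L x := by
  have h1 : Pool.Agent.R288.PC.OnFlat (N - r) L x := by
    refine ⟨AddSubgroup.toZModSubmodule 2 U, ?_, fun w hw => h w ?_⟩
    · have h2 : Nat.card (AddSubgroup.toZModSubmodule 2 U) = Nat.card U := rfl
      have h3 : Nat.card (AddSubgroup.toZModSubmodule 2 U) =
          2 ^ finrank (ZMod 2) (AddSubgroup.toZModSubmodule 2 U) := by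
        rw [Module.natCard_eq_pow_finrank (K := ZMod 2)]
        simp
      have h4 := AddSubgroup.index_mul_card U
      have h5 : Nat.card (V N) = 2 ^ N := by
        rw [Nat.card_eq_fintype_card, Fintype.card_fun, ZMod.card, Fintype.card_fin]
      rw [h5, ← h2, h3] at h4
      have h6 : 2 ^ N ≤ 2 ^ (r + finrank (ZMod 2) (AddSubgroup.toZModSubmodule 2 U)) := by
        rw [pow_add, ← h4]
        exact Nat.mul_le_mul_right _ hU
      have h7 := (Nat.pow_le_pow_iff_right (by norm_num : 1 < 2)).1 h6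
      omega
    · exact hw
  obtain ⟨g, hg, h2, h3⟩ := Pool.Agent.R288.PC.flat_cert (N - r) L x h1
  exact ⟨g, Pool.Agent.R288.PC.deg_mono (by omega) hg, h2, h3⟩

/-- **Most points of a locally defined set have certificates of low degree.** -/
theorem uncertified {N k q D n : ℕ} {T L : Set (V N)} (𝒜 : Set (Set (V N)))
    (ℬ : Fin q → Set (Set (V N))) (f : V N → ZMod 2) (hf : f ∈ Deg (ZMod 2) N D)
    (hA : ∀ A ∈ 𝒜, Cell k A) (hB : ∀ j, ∀ B ∈ ℬ j, Cell k B)
    (hT : T = {y | (∀ A ∈ 𝒜, y ∉ A) ∧ (∀ j, ∃ B ∈ ℬ j, y ∈ B) ∧ f y ≠ 0}) (hL : T ⊆ L) :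
    Nat.card {y : V N | y ∈ T ∧ ¬ Cert (ZMod 2) (k * (n + q) + D) L y} * (2 ^ k) ^ (n + 1) ≤
      2 ^ N * (2 ^ k - 1) ^ (n + 1) := by
  have h5 : Nat.card (V N) = 2 ^ N := by
    rw [Nat.card_eq_fintype_card, Fintype.card_fun, ZMod.card, Fintype.card_fin]
  rw [← h5]
  refine few (2 ^ k) n (V N) _ 𝒜 (fun A h => flat_of_cell (hA A h)) ?_ ?_
  · intro A hA' x hx
    have h1 : x ∈ T := hx.1
    rw [hT] at h1
    exact h1.1 A hA'
  · intro x hx U hU
    by_contra hcon
    push Not at hcon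
    obtain ⟨hx1, hx2⟩ := hx
    apply hx2
    have hxT := hx1
    rw [hT] at hxT
    obtain ⟨_, h2, h3⟩ := hxT
    choose B hB1 hB2 using h2
    choose H hH1 hH2 using fun j => coset_in_flat (flat_of_cell (hB j (B j) (hB1 j))) (hB2 j)
    have hidx : (U ⊓ ⨅ j, H j).index ≤ 2 ^ (k * (n + q)) := by
      refine (AddSubgroup.index_inf_le).trans ?_
      have h6 : (⨅ j, H j).index ≤ (2 ^ k) ^ q := by
        refine (AddSubgroup.index_iInf_le H).trans ?_
        refine (Finset.prod_le_prod' fun j _ => hH1 j).trans ?_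
        simp
      calc U.index * (⨅ j, H j).index ≤ (2 ^ k) ^ n * (2 ^ k) ^ q := Nat.mul_le_mul hU h6
        _ = 2 ^ (k * (n + q)) := by rw [← pow_add, ← pow_mul]
    obtain ⟨g, hg, hg1, hg2⟩ := cert_of_coset (r := k * (n + q))
      (L := {y | (∀ A ∈ 𝒜, y ∉ A) ∧ (∀ j, ∃ B ∈ ℬ j, y ∈ B)}) (x := x) _ hidx (by
        intro w hw
        rw [AddSubgroup.mem_inf] at hw
        refine ⟨fun A hA' => hcon w hw.1 A hA', fun j => ⟨B j, hB1 j, hH2 j w ?_⟩⟩
        exact (AddSubgroup.mem_iInf.1 hw.2) j)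
    refine ⟨g * f, Pool.Agent.R288.PC.mul_mem hg hf, mul_ne_zero hg1 h3, fun y' hy' => hL ?_⟩
    have h8 : g y' ≠ 0 := left_ne_zero_of_mul hy'
    have h9 : f y' ≠ 0 := right_ne_zero_of_mul hy'
    rw [hT]
    exact ⟨(hg2 y' h8).1, (hg2 y' h8).2, h9⟩

end Pool.Agent.H217_CF
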