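import Mathlib
import Pool.Agent.H217_CF.Greedy

/-!
# Progressions in the support of a polynomial on a flat
-/

set_option autoImplicit false

namespace Pool.Agent.H217_CF.Prog

open Finset Module MvPolynomial

variable {p : ℕ} [Fact p.Prime] {n : ℕ}

theorem deg_bind {σ τ R : Type*} [CommRing R] [Nontrivial R] (f : MvPolynomial σ R)
    (l : σ → MvPolynomial τ R) (h : ∀ i, (l i).totalDegree ≤ 1) :
    (aeval l f).totalDegree ≤ f.totalDegree := by
  rw [aeval_def, eval₂_eq]
  apply totalDegree_finsetSum_le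
  intro d hd
  refine (totalDegree_mul _ _).trans ?_
  have h1 : ((algebraMap R (MvPolynomial τ R)) (coeff d f)).totalDegree = 0 := totalDegree_C _
  rw [h1, zero_add]
  refine (totalDegree_finsetProd _ _).trans ?_
  have h2 : ∀ i ∈ d.support, (l i ^ d i).totalDegree ≤ d i := by
    intro i _
    refine (totalDegree_pow _ _).trans ?_
    calc d i * (l i).totalDegree ≤ d i * 1 := Nat.mul_le_mul_left _ (h i)
      _ = d i := mul_one _
  exact (sum_le_sum h2).trans (le_totalDegree hd)

/-- the polynomial of a linear form -/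
noncomputable def lin (φ : (Fin n → ZMod p) →ₗ[ZMod p] ZMod p) : MvPolynomial (Fin n) (ZMod p) :=
  ∑ i, C (φ (Pi.single i 1)) * X i

theorem eval_lin (φ : (Fin n → ZMod p) →ₗ[ZMod p] ZMod p) (y : Fin n → ZMod p) :
    eval y (lin φ) = φ y := by
  unfold lin
  rw [map_sum]
  simp only [map_mul, eval_C, eval_X]
  conv_rhs => rw [pi_eq_sum_univ' y]
  rw [map_sum]
  refine sum_congr rfl (fun i _ => ?_)
  rw [map_smul, smul_eq_mul, mul_comm]

theorem deg_lin (φ : (Fin n → ZMod p) →ₗ[ZMod p] ZMod p) : (lin φ).totalDegree ≤ 1 := by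
  unfold lin
  apply totalDegree_finsetSum_le
  intro i _
  refine (totalDegree_mul _ _).trans ?_
  simp

/-- **A polynomial of low degree which does not vanish at a point of a flat does not vanish on some
progression in the flat starting at this point.** -/
theorem prog (k D : ℕ) (W : Submodule (ZMod p) (Fin n → ZMod p)) (x : Fin n → ZMod p)
    (f : MvPolynomial (Fin n) (ZMod p)) (hf : f.totalDegree ≤ D) (hx : eval x f ≠ 0)
    (hdeg : (k - 1) * D + (p - 1) * finrank (ZMod p) ((Fin n → ZMod p) ⧸ W) < (p - 1) * n) :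
    ∃ y ∈ W, y ≠ 0 ∧ ∀ j < k, eval (x + j • y) f ≠ 0 := by
  classical
  by_contra hcon
  push Not at hcon
  let b := Module.finBasis (ZMod p) ((Fin n → ZMod p) ⧸ W)
  let φ : Fin (finrank (ZMod p) ((Fin n → ZMod p) ⧸ W)) → (Fin n → ZMod p) →ₗ[ZMod p] ZMod p :=
    fun l => b.coord l ∘ₗ W.mkQ
  let g : ℕ → MvPolynomial (Fin n) (ZMod p) := fun j =>
    aeval (fun i => C (x i) + C ((j + 1 : ℕ) : ZMod p) * X i) f
  let P : MvPolynomial (Fin n) (ZMod p) :=
    (∏ j ∈ range (k - 1), g j) * ∏ l, (1 - lin (φ l) ^ (p - 1))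
  have hg : ∀ j y, eval y (g j) = eval (x + (j + 1) • y) f := by
    intro j y
    show eval y (aeval (fun i => C (x i) + C ((j + 1 : ℕ) : ZMod p) * X i) f) = _
    have h1 : ∀ q : MvPolynomial (Fin n) (ZMod p),
        eval y (aeval (fun i => C (x i) + C ((j + 1 : ℕ) : ZMod p) * X i) q) =
          eval (x + (j + 1) • y) q := by
      intro q
      induction q using MvPolynomial.induction_on with
      | C a => simp
      | add q r hq hr => rw [map_add, map_add, map_add, hq, hr]
      | mul_X q i hq =>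
        have e : (x + (j + 1) • y) i = x i + ((j + 1 : ℕ) : ZMod p) * y i := by
          rw [Pi.add_apply, Pi.smul_apply, nsmul_eq_mul]
        rw [map_mul, map_mul, map_mul, hq, aeval_X, map_add, map_mul, eval_C, eval_C, eval_X,
          eval_X, e]
    exact h1 f
  have hgd : ∀ j, (g j).totalDegree ≤ D := by
    intro j
    refine (deg_bind f _ (fun i => ?_)).trans hf
    refine (totalDegree_add _ _).trans ?_
    rw [totalDegree_C]
    refine max_le (by norm_num) ?_
    refine (totalDegree_mul _ _).trans ?_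
    rw [totalDegree_C, totalDegree_X]
  have hP : P.totalDegree < (Fintype.card (ZMod p) - 1) * Fintype.card (Fin n) := by
    rw [ZMod.card, Fintype.card_fin]
    refine lt_of_le_of_lt ?_ hdeg
    refine (totalDegree_mul _ _).trans (add_le_add ?_ ?_)
    · refine (totalDegree_finsetProd _ _).trans ?_
      refine (sum_le_sum fun j _ => hgd j).trans ?_
      rw [sum_const, card_range, smul_eq_mul]
    · refine (totalDegree_finsetProd _ _).trans ?_
      have h1 : ∀ l ∈ (univ : Finset (Fin (finrank (ZMod p) ((Fin n → ZMod p) ⧸ W)))),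
          (1 - lin (φ l) ^ (p - 1)).totalDegree ≤ p - 1 := by
        intro l _
        refine (totalDegree_sub _ _).trans ?_
        rw [totalDegree_one]
        refine max_le (Nat.zero_le _) ?_
        refine (totalDegree_pow _ _).trans ?_
        calc (p - 1) * (lin (φ l)).totalDegree ≤ (p - 1) * 1 := Nat.mul_le_mul_left _ (deg_lin _)
          _ = p - 1 := mul_one _
      refine (sum_le_sum h1).trans ?_
      rw [sum_const, card_univ, Fintype.card_fin, smul_eq_mul, mul_comm]
  have hsum := MvPolynomial.sum_eval_eq_zero P hP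
  have hp1 : p - 1 ≠ 0 := by
    have := (Fact.out : p.Prime).two_le
    omega
  have h0 : eval 0 P ≠ 0 := by
    simp only [P]
    rw [map_mul, map_prod, map_prod]
    refine mul_ne_zero ?_ ?_
    · rw [prod_ne_zero_iff]
      intro j _
      rw [hg, smul_zero, add_zero]
      exact hx
    · rw [prod_ne_zero_iff]
      intro l _
      rw [map_sub, map_one, map_pow, eval_lin, map_zero, zero_pow hp1, sub_zero]
      exact one_ne_zero
  have hne : ∀ y, y ≠ 0 → eval y P = 0 := by
    intro y hy
    simp only [P]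
    rw [map_mul, map_prod, map_prod]
    by_cases hyW : y ∈ W
    · obtain ⟨j, hj, hz⟩ := hcon y hyW hy
      have hj0 : j ≠ 0 := by
        rintro rfl
        rw [zero_smul, add_zero] at hz
        exact hx hz
      refine mul_eq_zero_of_left ?_ _
      refine prod_eq_zero (i := j - 1) (mem_range.2 (by omega)) ?_
      rw [hg]
      have e : j - 1 + 1 = j := by omega
      rw [e]
      exact hz
    · refine mul_eq_zero_of_right _ ?_
      have h1 : W.mkQ y ≠ 0 := by
        rw [Submodule.mkQ_apply, Ne, Submodule.Quotient.mk_eq_zero]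
        exact hyW
      have h2 : ∃ l, φ l y ≠ 0 := by
        by_contra hc
        push Not at hc
        apply h1
        apply b.ext_elem
        intro l
        have h3 := hc l
        simp only [φ] at h3
        rw [LinearMap.comp_apply, Basis.coord_apply] at h3
        rw [h3, map_zero, Finsupp.zero_apply]
      obtain ⟨l, hl⟩ := h2
      refine prod_eq_zero (mem_univ l) ?_
      rw [map_sub, map_one, map_pow, eval_lin, ZMod.pow_card_sub_one_eq_one hl, sub_self]
  rw [sum_eq_single 0 (fun y _ hy => hne y hy) (fun h => absurd (mem_univ _) h)] at hsum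
  exact h0 hsum

/-- the solutions of `c` linear equations -/
def Cell (c : ℕ) (B : Set (Fin n → ZMod p)) : Prop :=
  ∃ (u : Fin c → Fin n → ZMod p) (b : Fin c → ZMod p), B = {y | ∀ i, u i ⬝ᵥ y = b i}

theorem flat_of_cell {c : ℕ} {B : Set (Fin n → ZMod p)} (hB : Cell c B) : Flat (p ^ c) B := by
  obtain ⟨u, b, rfl⟩ := hB
  by_cases he : ∃ a : Fin n → ZMod p, ∀ i, u i ⬝ᵥ a = b i
  · obtain ⟨a, ha⟩ := he
    right
    let φ : (Fin n → ZMod p) →+ (Fin c → ZMod p) :=
      { toFun := fun y i => u i ⬝ᵥ y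
        map_zero' := by funext i; simp
        map_add' := fun x y => by funext i; simp [dotProduct_add] }
    refine ⟨φ.ker, a, ?_, ?_⟩
    · rw [AddSubgroup.index_ker]
      have h1 : Nat.card φ.range ≤ Nat.card (Fin c → ZMod p) :=
        Nat.card_le_card_of_injective _ Subtype.val_injective
      refine h1.trans (le_of_eq ?_)
      rw [Nat.card_eq_fintype_card, Fintype.card_fun, ZMod.card, Fintype.card_fin]
    · ext y
      simp only [Set.mem_ofPred_eq, AddMonoidHom.mem_ker]
      constructor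
      · intro h
        funext i
        show u i ⬝ᵥ (y - a) = 0
        rw [dotProduct_sub, h i, ha i, sub_self]
      · intro h i
        have h1 : u i ⬝ᵥ (y - a) = 0 := congrFun h i
        rw [dotProduct_sub, ha i, sub_eq_zero] at h1
        exact h1
  · left
    ext y
    simp only [Set.mem_ofPred_eq, Set.mem_empty_iff_false, iff_false]
    exact fun h => he ⟨y, h⟩

theorem coset_in_flat {W : Type} [AddCommGroup W] {K : ℕ} {A : Set W} (hA : Flat K A) {x : W}
    (hx : x ∈ A) : ∃ H : AddSubgroup W, H.index ≤ K ∧ ∀ w ∈ H, x + w ∈ A := by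
  rcases hA with h | ⟨H, a, hK, h⟩
  · rw [h] at hx
    exact absurd hx (by simp)
  · refine ⟨H, hK, fun w hw => ?_⟩
    rw [h] at hx ⊢
    simp only [Set.mem_ofPred_eq] at hx ⊢
    have e : x + w - a = (x - a) + w := by abel
    rw [e]
    exact H.add_mem hx hw

theorem codim_le {r : ℕ} (U : AddSubgroup (Fin n → ZMod p)) (hU : U.index ≤ p ^ r) :
    finrank (ZMod p) ((Fin n → ZMod p) ⧸ AddSubgroup.toZModSubmodule p U) ≤ r := by
  have hp := (Fact.out : p.Prime)
  have h2 : Nat.card (AddSubgroup.toZModSubmodule p U) = Nat.card U := rfl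
  have h3 : Nat.card (AddSubgroup.toZModSubmodule p U) =
      p ^ finrank (ZMod p) (AddSubgroup.toZModSubmodule p U) := by
    rw [Module.natCard_eq_pow_finrank (K := ZMod p)]
    simp
  have h4 := AddSubgroup.index_mul_card U
  have h5 : Nat.card (Fin n → ZMod p) = p ^ n := by
    rw [Nat.card_eq_fintype_card, Fintype.card_fun, ZMod.card, Fintype.card_fin]
  have h6 := Submodule.finrank_quotient_add_finrank (AddSubgroup.toZModSubmodule p U)
  rw [Module.finrank_fin_fun] at h6
  rw [h5, ← h2, h3] at h4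
  have h7 : 0 < p ^ finrank (ZMod p) (AddSubgroup.toZModSubmodule p U) := pow_pos hp.pos _
  have h9 : p ^ n = p ^ finrank (ZMod p) ((Fin n → ZMod p) ⧸ AddSubgroup.toZModSubmodule p U) *
      p ^ finrank (ZMod p) (AddSubgroup.toZModSubmodule p U) := by
    rw [← pow_add, h6]
  rw [h9] at h4
  have h8 := Nat.eq_of_mul_eq_mul_right h7 h4
  rw [h8] at hU
  exact (Nat.pow_le_pow_iff_right hp.one_lt).1 hU

/-- local sets without `k`-term progressions are small -/
theorem small {c q D k s : ℕ} {T : Set (Fin n → ZMod p)} (𝒜 : Set (Set (Fin n → ZMod p)))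
    (ℬ : Fin q → Set (Set (Fin n → ZMod p))) (f : MvPolynomial (Fin n) (ZMod p))
    (hf : f.totalDegree ≤ D) (hA : ∀ A ∈ 𝒜, Cell c A) (hB : ∀ j, ∀ B ∈ ℬ j, Cell c B)
    (hT : T = {y | (∀ A ∈ 𝒜, y ∉ A) ∧ (∀ j, ∃ B ∈ ℬ j, y ∈ B) ∧ eval y f ≠ 0})
    (hfree : ∀ x y : Fin n → ZMod p, y ≠ 0 → ¬ ∀ j < k, x + j • y ∈ T)
    (hdeg : (k - 1) * D + (p - 1) * (c * (s + q)) < (p - 1) * n) :
    Nat.card T * (p ^ c) ^ (s + 1) ≤ p ^ n * (p ^ c - 1) ^ (s + 1) := by
  have h5 : Nat.card (Fin n → ZMod p) = p ^ n := by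
    rw [Nat.card_eq_fintype_card, Fintype.card_fun, ZMod.card, Fintype.card_fin]
  rw [← h5]
  refine few (p ^ c) s (Fin n → ZMod p) T 𝒜 (fun A h => flat_of_cell (hA A h)) ?_ ?_
  · intro A hA' x hx
    rw [hT] at hx
    exact hx.1 A hA'
  · intro x hx U hU
    by_contra hcon
    push Not at hcon
    have hxT := hx
    rw [hT] at hxT
    obtain ⟨_, h2, h3⟩ := hxT
    choose B hB1 hB2 using h2
    choose H hH1 hH2 using fun j => coset_in_flat (flat_of_cell (hB j (B j) (hB1 j))) (hB2 j)
    have hidx : (U ⊓ ⨅ j, H j).index ≤ p ^ (c * (s + q)) := by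
      refine (AddSubgroup.index_inf_le).trans ?_
      have h6 : (⨅ j, H j).index ≤ (p ^ c) ^ q := by
        refine (AddSubgroup.index_iInf_le H).trans ?_
        refine (Finset.prod_le_prod' fun j _ => hH1 j).trans ?_
        simp
      calc U.index * (⨅ j, H j).index ≤ (p ^ c) ^ s * (p ^ c) ^ q := Nat.mul_le_mul hU h6
        _ = p ^ (c * (s + q)) := by rw [← pow_add, ← pow_mul]
    obtain ⟨y, hyW, hy0, hyf⟩ := prog k D (AddSubgroup.toZModSubmodule p (U ⊓ ⨅ j, H j)) x f hf h3
      (by
        refine lt_of_le_of_lt ?_ hdeg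
        exact Nat.add_le_add_left (Nat.mul_le_mul_left _ (codim_le _ hidx)) _)
    have hyU : y ∈ U ⊓ ⨅ j, H j := hyW
    refine hfree x y hy0 (fun j hj => ?_)
    have hjy : j • y ∈ U ⊓ ⨅ j, H j := AddSubgroup.nsmul_mem _ hyU j
    rw [AddSubgroup.mem_inf] at hjy
    rw [hT]
    exact ⟨fun A hA' => hcon _ hjy.1 A hA',
      fun i => ⟨B i, hB1 i, hH2 i _ ((AddSubgroup.mem_iInf.1 hjy.2) i)⟩, hyf j hj⟩

end Pool.Agent.H217_CF.Prog
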